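import Pool.Agent.Work.MP_65b809_gt.Main

set_option autoImplicit false

namespace Pool.Agent.Results.MP_65b809_gt.RankOneProducts

open MP65

/-- Let `X = ∏ X_i × ℝ^k`, where `X_i = G_i ∩ Pos` are symmetric spaces of rank one (real hyperbolic,
complex hyperbolic, quaternionic hyperbolic spaces, the Cayley plane, or the line), with arbitrary
scaled metrics, and let `T` be the 3-regular tree. For every maximal 1-separated subset `Z` of
`X × T^l`, `asdim_se Z ≤ asdim_poly Z ≤ ∑ (dim X_i - rank X_i) + l`. -/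
theorem result {n : ℕ} {m : Fin n → ℕ} (G : ∀ i, AlgGroup (m i)) (c : Fin n → ℝ)
    (k l : ℕ) {V : Type} (T : SimpleGraph V) (hc : ∀ i, 0 < c i) (hr : ∀ i, rankX (G i) = 1)
    (hT : T.IsTree) (h3 : ∀ v, (T.neighborSet v).ncard = 3) (Z : Set (Total G k l V))
    (hZ : IsNet (totalDist G c k l T) Z) :
    asdimSe (fun a b : Z => totalDist G c k l T a.1 b.1) ≤
        asdimPoly (fun a b : Z => totalDist G c k l T a.1 b.1) ∧
      asdimPoly (fun a b : Z => totalDist G c k l T a.1 b.1) ≤
        ((∑ i, (dimX (G i) - rankX (G i)) + l : ℕ) : ℕ∞) :=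
  main G c k l T hc hr hT h3 Z hZ

end Pool.Agent.Results.MP_65b809_gt.RankOneProducts
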